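import Mathlib

set_option autoImplicit false
set_option maxHeartbeats 400000

open Filter Topology MeasureTheory Set

namespace Pool.Agent.Results.MP_8df504_an.Both

/-- broken-linear self-maps of the unit interval -/
def BL (T : ℝ → ℝ) : Prop :=
  MapsTo T (Icc 0 1) (Icc 0 1) ∧ ContinuousOn T (Icc 0 1) ∧
    ∃ (m : ℕ) (a : ℕ → ℝ), a 0 = 0 ∧ a m = 1 ∧ ∀ j < m, a j < a (j + 1) ∧
      ∃ s c : ℝ, ∀ x ∈ Icc (a j) (a (j + 1)), T x = s * x + c

/-- the proportion of the first `N` iterates of `p` lying in `R` -/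
noncomputable def A (T : ℝ → ℝ) (R : Set ℝ) (p : ℝ) (N : ℕ) : ℝ :=
  (∑ i ∈ Finset.range N, R.indicator (fun _ => (1 : ℝ)) (T^[i + 1] p)) / N

noncomputable def T (x : ℝ) : ℝ := x / 2

theorem bl : BL T := ⟨fun x hx => ⟨by unfold T; linarith [hx.1], by unfold T; linarith [hx.2]⟩,
  by unfold T; fun_prop, 1, fun j => j, by simp, by simp,
  fun j _ => ⟨by simp, 1 / 2, 0, fun x _ => by unfold T; ring⟩⟩

noncomputable def e (x : ℝ) : ℝ := -Real.logb 2 x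

theorem me : Measurable e := by unfold e Real.logb; fun_prop

theorem it (p : ℝ) (hp : p ∈ Ioc (0 : ℝ) 1) (i : ℕ) :
    T^[i] p ∈ Ioc (0 : ℝ) 1 ∧ e (T^[i] p) = e p + i := by
  induction i with
  | zero => simpa using hp
  | succ i ih =>
    obtain ⟨⟨a, b⟩, c⟩ := ih
    rw [Function.iterate_succ_apply', T]
    refine ⟨⟨by linarith, by linarith⟩, ?_⟩
    rw [e, Real.logb_div a.ne' two_ne_zero, Real.logb_self_eq_one one_lt_two]
    rw [e] at c; push_cast; linarith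

theorem e0 {p : ℝ} (hp : p ∈ Ioc (0 : ℝ) 1) : 0 ≤ e p :=
  neg_nonneg.2 (Real.logb_nonpos one_lt_two hp.1.le hp.2)

def R (Q : ℕ → ℕ → Prop) : Set ℝ := {x | x ∈ Ioc (0 : ℝ) 1 ∧ Q ⌊e x⌋₊ ⌊1 / Int.fract (e x)⌋₊}

theorem mR (Q : ℕ → ℕ → Prop) : MeasurableSet (R Q) ∧ R Q ⊆ Icc 0 1 := by
  refine ⟨measurableSet_Ioc.inter ?_, fun x hx => Ioc_subset_Icc_self hx.1⟩
  have : Measurable fun x => (⌊e x⌋₊, ⌊1 / Int.fract (e x)⌋₊) :=
    me.nat_floor.prodMk (measurable_const.div me.fract).nat_floor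
  exact this (MeasurableSet.of_discrete (s := {q : ℕ × ℕ | Q q.1 q.2}))

open Classical in
theorem AR (Q : ℕ → ℕ → Prop) (p : ℝ) (hp : p ∈ Ioc (0 : ℝ) 1) (N : ℕ) : A T (R Q) p N =
    (∑ i ∈ Finset.range N, if Q (⌊e p⌋₊ + (i + 1)) ⌊1 / Int.fract (e p)⌋₊ then (1 : ℝ) else 0) / N := by
  rw [A]; congr 1
  refine Finset.sum_congr rfl fun i _ => ?_
  obtain ⟨a, b⟩ := it p hp (i + 1)
  simp only [indicator, R, mem_ofPred_eq, a, b, true_and, Nat.floor_add_natCast (e0 hp),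
    Int.fract_add_natCast]

theorem ae0 : ∀ᵐ p ∂(volume.restrict (Icc (0 : ℝ) 1)), p ∈ Ioc (0 : ℝ) 1 := by
  rw [← restrict_Ioc_eq_restrict_Icc]; exact ae_restrict_mem measurableSet_Ioc

theorem nolim (K : ℕ) (L : ℝ) (f : ℕ → ℝ) (f0 : ∀ n, 0 ≤ f n) (f1 : ∀ n, f n ≤ 1)
    (h : ∀ j n, 4 ^ j ≤ n → n < 4 ^ (j + 1) → f n = if Even j then 1 else 0) :
    ¬Tendsto (fun N : ℕ => (∑ i ∈ Finset.range N, f (K + (i + 1))) / N) atTop (𝓝 L) := by
  intro hL
  obtain ⟨M, hM⟩ := Metric.tendsto_atTop.1 hL (1 / 6) (by norm_num)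
  have key : ∀ j, K + M + 1 ≤ j → ∃ a : ℕ, M ≤ a + 3 * 4 ^ j ∧ a ≤ 4 ^ j ∧
      ∑ i ∈ Finset.range (a + 3 * 4 ^ j), f (K + (i + 1)) =
        ∑ i ∈ Finset.range a, f (K + (i + 1)) + 3 * 4 ^ j * if Even j then 1 else 0 := by
    intro j hj
    have := Nat.lt_pow_self (n := j) (show 1 < 4 by norm_num)
    obtain ⟨a, ha⟩ : ∃ a, 4 ^ j = K + 1 + a := ⟨4 ^ j - (K + 1), by omega⟩
    refine ⟨a, by omega, by omega, ?_⟩
    rw [Finset.sum_range_add, Finset.sum_congr rfl fun i hi => h j (K + (a + i + 1)) (by omega)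
      (by simp at hi; rw [pow_succ]; omega)]
    simp
  obtain ⟨a, a1, a2, a3⟩ := key (2 * (K + M + 1)) (by omega)
  obtain ⟨b, b1, b2, b3⟩ := key (2 * (K + M + 1) + 1) (by omega)
  have u := hM _ a1; have v := hM _ b1
  rw [a3, if_pos (by simp)] at u; rw [b3, if_neg (by simp)] at v
  have s1 : 0 ≤ ∑ i ∈ Finset.range a, f (K + (i + 1)) := Finset.sum_nonneg fun _ _ => f0 _
  have s2 : ∑ i ∈ Finset.range b, f (K + (i + 1)) ≤ b := by
    simpa using Finset.sum_le_card_nsmul (Finset.range b) _ 1 fun i _ => f1 (K + (i + 1))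
  have a2 : (a : ℝ) ≤ 4 ^ (2 * (K + M + 1)) := by exact_mod_cast a2
  have b2 : (b : ℝ) ≤ 4 ^ (2 * (K + M + 1) + 1) := by exact_mod_cast b2
  push_cast at u v
  have p1 : (0 : ℝ) < 4 ^ (2 * (K + M + 1)) := by positivity
  have p2 : (0 : ℝ) < 4 ^ (2 * (K + M + 1) + 1) := by positivity
  generalize (4 : ℝ) ^ (2 * (K + M + 1)) = X at *
  generalize (4 : ℝ) ^ (2 * (K + M + 1) + 1) = Y at *
  rw [Real.dist_eq, abs_lt] at u v
  have u' : 3 / 4 ≤ (∑ i ∈ Finset.range a, f (K + (i + 1)) + 3 * X * 1) / (a + 3 * X) := by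
    rw [le_div_iff₀ (by positivity)]; linarith
  have v' : (∑ i ∈ Finset.range b, f (K + (i + 1)) + 3 * Y * 0) / (b + 3 * Y) ≤ 1 / 4 := by
    rw [div_le_iff₀ (by positivity)]; linarith
  linarith [u.2, v.1]

theorem dens (K m : ℕ) : Tendsto (fun N : ℕ => (∑ i ∈ Finset.range N,
    if m + 1 ∣ K + (i + 1) then (1 : ℝ) else 0) / N) atTop (𝓝 (1 / (m + 1))) := by
  have c : ∀ N, (∑ i ∈ Finset.range N, if m + 1 ∣ K + (i + 1) then (1 : ℝ) else 0) =
      ((K + N) / (m + 1) : ℕ) - (K / (m + 1) : ℕ) := fun N => by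
    induction N with
    | zero => simp
    | succ N ih => rw [Finset.sum_range_succ, ih, ← add_assoc, Nat.succ_div]; push_cast; ring
  have b : ∀ n : ℕ, |((n / (m + 1) : ℕ) : ℝ) - n / (m + 1)| ≤ 1 := fun n => by
    have h1 := Nat.cast_div_le (α := ℝ) (m := n) (n := m + 1)
    have h2 : (n : ℝ) < (m + 1) * ((n / (m + 1) : ℕ) + 1) := by
      exact_mod_cast Nat.lt_mul_div_succ n (Nat.succ_pos m)
    rw [← div_lt_iff₀' (by positivity)] at h2
    push_cast at h1; rw [abs_le]; constructor <;> linarith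
  rw [← tendsto_sub_nhds_zero_iff]
  refine squeeze_zero_norm' ?_ (tendsto_const_div_atTop_nhds_zero_nat 2)
  filter_upwards [eventually_gt_atTop 0] with N hN
  have : (0 : ℝ) < N := by exact_mod_cast hN
  have u := b (K + N); have v := b K
  rw [c, div_sub' this.ne', Real.norm_eq_abs, abs_div, abs_of_pos this]
  gcongr
  push_cast at u; rw [add_div] at u
  rw [mul_one_div]; rw [abs_le] at *; constructor <;> linarith [u.1, u.2, v.1, v.2]

theorem result :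
    (∃ T R, BL T ∧ MeasurableSet R ∧ R ⊆ Icc 0 1 ∧
      ∀ᵐ p ∂(volume.restrict (Icc (0 : ℝ) 1)), ¬∃ L, Tendsto (A T R p) atTop (𝓝 L)) ∧
    ∃ T R, ∃ L : ℝ → ℝ, BL T ∧ MeasurableSet R ∧ R ⊆ Icc 0 1 ∧
      (∀ᵐ p ∂(volume.restrict (Icc (0 : ℝ) 1)), Tendsto (A T R p) atTop (𝓝 (L p))) ∧
      ∀ S : Set ℝ, (∀ᵐ p ∂(volume.restrict (Icc (0 : ℝ) 1)), p ∈ S) → (L '' (S ∩ Icc 0 1)).Infinite := by
  classical
  refine ⟨⟨T, R fun k _ => Even (Nat.log 4 k), bl, (mR _).1, (mR _).2, ?_⟩,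
    T, R fun k m => m + 1 ∣ k, fun p => 1 / ((⌊1 / Int.fract (e p)⌋₊ : ℝ) + 1), bl, (mR _).1, (mR _).2,
    ?_, fun S hS => ?_⟩
  · filter_upwards [ae0] with p hp ⟨L, hL⟩
    refine nolim ⌊e p⌋₊ L (fun n => if Even (Nat.log 4 n) then 1 else 0)
      (fun n => by split_ifs <;> norm_num) (fun n => by split_ifs <;> norm_num)
      (fun j n a b => by rw [Nat.log_eq_of_pow_le_of_lt_pow a b]) (hL.congr fun N => ?_)
    rw [AR _ p hp]; congr!
  · filter_upwards [ae0] with p hp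
    refine (dens ⌊e p⌋₊ _).congr fun N => ?_
    rw [AR _ p hp]; congr!
  · refine infinite_of_injective_forall_mem (f := fun j : ℕ => 1 / (((j + 1 : ℕ) : ℝ) + 1))
      (fun a b h => by simpa using h) fun j => ?_
    have j0 : (0 : ℝ) ≤ j := j.cast_nonneg
    have lt : (2 : ℝ) ^ (-(1 / ((j : ℝ) + 1))) < 2 ^ (-(1 / ((j : ℝ) + 2))) :=
      Real.rpow_lt_rpow_of_exponent_lt one_lt_two (neg_lt_neg (by gcongr; norm_num))
    have sub : Ioo ((2 : ℝ) ^ (-(1 / ((j : ℝ) + 1)))) (2 ^ (-(1 / ((j : ℝ) + 2)))) ⊆ Icc 0 1 :=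
      fun p hp => ⟨le_trans (by positivity) hp.1.le, hp.2.le.trans
        (Real.rpow_le_one_of_one_le_of_nonpos one_le_two (neg_nonpos.2 (by positivity)))⟩
    obtain ⟨p, hp, hs⟩ := Measure.exists_mem_of_measure_ne_zero_of_ae
      (by simpa using lt) (ae_restrict_of_ae_restrict_of_subset sub hS)
    refine ⟨p, ⟨hs, sub hp⟩, ?_⟩
    have p0 : 0 < p := lt_trans (by positivity) hp.1
    have h1 := (Real.lt_logb_iff_rpow_lt one_lt_two p0).2 hp.1
    have h2 := (Real.logb_lt_iff_lt_rpow one_lt_two p0).2 hp.2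
    have h3 : 1 / ((j : ℝ) + 1) ≤ 1 := by rw [div_le_one (by positivity)]; linarith
    have h4 : 0 < 1 / ((j : ℝ) + 2) := by positivity
    have ep : 0 < e p := by unfold e; linarith
    have : ⌊1 / Int.fract (e p)⌋₊ = j + 1 := by
      rw [Int.fract_eq_self.2 ⟨ep.le, by unfold e; linarith⟩, Nat.floor_eq_iff (by positivity)]
      push_cast
      refine ⟨((lt_one_div (by positivity) ep).2 (by unfold e; linarith)).le, ?_⟩
      rw [add_assoc, one_add_one_eq_two]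
      exact (one_div_lt ep (by positivity)).2 (by unfold e; linarith)
    simp only [this]

end Pool.Agent.Results.MP_8df504_an.Both
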